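import Pool.Agent.RegJ.ArovConv

open Filter Topology Complex MeasureTheory Set Matrix Metric
open scoped Real ENNReal ComplexOrder

namespace Pool.Agent.H80K

open Pool.Agent.RegJ

set_option linter.unusedSectionVars false

/-! ### The measure on the circle is invariant under complex conjugation -/

lemma mp_conj : MeasurePreserving (starRingEnd ℂ) σ σ := by
  refine ⟨Complex.continuous_conj.measurable, ?_⟩
  unfold σ circleMeasure
  rw [Measure.map_smul, Measure.map_map Complex.continuous_conj.measurable measurable_cm]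
  congr 1
  have h1 : (starRingEnd ℂ) ∘ circleMap 0 1 = circleMap 0 1 ∘ (fun θ : ℝ => 2 * π - θ) := by
    funext θ
    simp only [Function.comp, circleMap_zero, Complex.ofReal_one, one_mul]
    rw [← Complex.exp_conj, Complex.exp_eq_exp_iff_exists_int]
    refine ⟨-1, ?_⟩
    simp only [map_mul, Complex.conj_ofReal, Complex.conj_I]
    push_cast
    ring
  have hm : Measurable (fun θ : ℝ => 2 * π - θ) := by fun_prop
  rw [h1, ← Measure.map_map measurable_cm hm]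
  congr 1
  have h2 : MeasurePreserving (fun θ : ℝ => 2 * π - θ) volume volume :=
    Measure.measurePreserving_sub_left volume (2 * π)
  have h3 := h2.restrict_preimage (s := Ico 0 (2 * π)) measurableSet_Ico
  have h4 : (fun θ : ℝ => 2 * π - θ) ⁻¹' Ico 0 (2 * π) = Ioc 0 (2 * π) := by
    ext θ
    simp only [mem_preimage, mem_Ico, mem_Ioc]
    constructor
    · rintro ⟨a, b⟩; constructor <;> linarith
    · rintro ⟨a, b⟩; constructor <;> linarith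
  rw [h4] at h3
  rw [h3.map_eq, restrict_Ico_eq_restrict_Ioc]

lemma ae_conj {p : ℂ → Prop} (h : ∀ᵐ ζ ∂σ, p ζ) : ∀ᵐ ζ ∂σ, p ((starRingEnd ℂ) ζ) :=
  mp_conj.quasiMeasurePreserving.ae h

lemma conj_mem {z : ℂ} (hz : z ∈ disc) : (starRingEnd ℂ) z ∈ disc := by
  simpa using hz

/-! ### `F~(z) = F(z̄)*` -/

/-- `F~(z) = F(z̄)*` -/
noncomputable def tl {a b : Type*} (F : ℂ → Matrix a b ℂ) : ℂ → Matrix b a ℂ :=
  fun z => (F ((starRingEnd ℂ) z))ᴴ

lemma tl_tl {a b : Type*} (F : ℂ → Matrix a b ℂ) : tl (tl F) = F := by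
  funext z
  simp [tl]

lemma analyticAt_conj_conj {f : ℂ → ℂ} {z : ℂ} (h : AnalyticAt ℂ f ((starRingEnd ℂ) z)) :
    AnalyticAt ℂ (fun w => (starRingEnd ℂ) (f ((starRingEnd ℂ) w))) z := by
  rw [Complex.analyticAt_iff_eventually_differentiableAt] at h ⊢
  filter_upwards [(Complex.continuous_conj.tendsto z).eventually h] with w hw
  exact differentiableAt_conj_conj_iff.2 hw

lemma analyticPt_tl {a b : Type*} {W : ℂ → Matrix a b ℂ} {z : ℂ}
    (h : AnalyticPt W ((starRingEnd ℂ) z)) : AnalyticPt (tl W) z :=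
  fun i k => analyticAt_conj_conj (h k i)

lemma analyticPt_of_tl {a b : Type*} {W : ℂ → Matrix a b ℂ} {z : ℂ}
    (h : AnalyticPt (tl W) z) : AnalyticPt W ((starRingEnd ℂ) z) := by
  have h1 : AnalyticPt (tl (tl W)) ((starRingEnd ℂ) z) :=
    analyticPt_tl (by rwa [Complex.conj_conj])
  rwa [tl_tl] at h1

lemma diff_tl {a b : Type*} {W : ℂ → Matrix a b ℂ}
    (h : ∀ i k, DifferentiableOn ℂ (fun z => W z i k) disc) :
    ∀ i k, DifferentiableOn ℂ (fun z => tl W z i k) disc :=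
  analyticPt_iff.2 fun z hz => analyticPt_tl (analyticPt_iff.1 h _ (conj_mem hz))

lemma bdry_tl {a b : Type*} {F : ℂ → Matrix a b ℂ} {ζ : ℂ} {L : Matrix a b ℂ}
    (h : HasBdryValue F ((starRingEnd ℂ) ζ) L) : HasBdryValue (tl F) ζ Lᴴ := by
  have hc : Continuous fun M : Matrix a b ℂ => Mᴴ := continuous_id.matrix_conjTranspose
  refine ((hc.tendsto L).comp h).congr fun r => ?_
  simp only [Function.comp, tl, map_mul, Complex.conj_ofReal]

lemma boundedType_tl {a b : Type*} {W : ℂ → Matrix a b ℂ} (hW : BoundedType W) :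
    BoundedType (tl W) := by
  obtain ⟨h, G, C, hd, hG, hb, ⟨z0, hz0, hne⟩, hWG⟩ := hW
  refine ⟨fun z => (starRingEnd ℂ) (h ((starRingEnd ℂ) z)), tl G, C, ?_, diff_tl hG, ?_, ?_, ?_⟩
  · intro z hz
    have h1 : DifferentiableAt ℂ h ((starRingEnd ℂ) z) :=
      (hd.analyticAt (isOpen_ball.mem_nhds (conj_mem hz))).differentiableAt
    exact (differentiableAt_conj_conj_iff.2 h1).differentiableWithinAt
  · intro z hz
    refine ⟨?_, fun i k => ?_⟩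
    · rw [RCLike.norm_conj]
      exact (hb _ (conj_mem hz)).1
    · simp only [tl, conjTranspose_apply, norm_star]
      exact (hb _ (conj_mem hz)).2 k i
  · exact ⟨(starRingEnd ℂ) z0, conj_mem hz0, by simpa using hne⟩
  · intro z hz h0
    have h1 : h ((starRingEnd ℂ) z) ≠ 0 := by simpa using h0
    simp only [tl]
    rw [hWG _ (conj_mem hz) h1, conjTranspose_smul]
    congr 1
    rw [RCLike.star_def, map_inv₀]

variable {m n : Type*} [Fintype m] [DecidableEq m] [Fintype n] [DecidableEq n]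

/-- the adjoint of a `j`-contractive matrix is `j`-contractive -/
lemma JC_star {A : Matrix (m ⊕ n) (m ⊕ n) ℂ} (hA : JC A) : JC Aᴴ := by
  intro x y
  have e11 : Aᴴ.toBlocks₁₁ = A.toBlocks₁₁ᴴ := rfl
  have e12 : Aᴴ.toBlocks₁₂ = A.toBlocks₂₁ᴴ := rfl
  have e21 : Aᴴ.toBlocks₂₁ = A.toBlocks₁₂ᴴ := rfl
  have e22 : Aᴴ.toBlocks₂₂ = A.toBlocks₂₂ᴴ := rfl
  rw [e11, e12, e21, e22]
  obtain ⟨u, hu⟩ : ∃ u, u = A.toBlocks₁₁ᴴ *ᵥ x + A.toBlocks₂₁ᴴ *ᵥ y := ⟨_, rfl⟩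
  obtain ⟨v, hv⟩ : ∃ v, v = A.toBlocks₁₂ᴴ *ᵥ x + A.toBlocks₂₂ᴴ *ᵥ y := ⟨_, rfl⟩
  rw [← hu, ← hv]
  obtain ⟨q, hq⟩ : ∃ q, q = A.toBlocks₂₂⁻¹ *ᵥ (-y - A.toBlocks₂₁ *ᵥ u) := ⟨_, rfl⟩
  have h1 : A.toBlocks₂₂ *ᵥ q = -y - A.toBlocks₂₁ *ᵥ u := by
    rw [hq, mulVec_mulVec, mul_nonsing_inv _ hA.isUnit22, one_mulVec]
  have h1' : A.toBlocks₂₁ *ᵥ u + A.toBlocks₂₂ *ᵥ q = -y := by
    rw [h1]; abel
  have h2 := hA u q
  rw [h1', nsq_neg] at h2
  obtain ⟨p, hp⟩ : ∃ p, p = A.toBlocks₁₁ *ᵥ u + A.toBlocks₁₂ *ᵥ q := ⟨_, rfl⟩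
  rw [← hp] at h2
  have k1 : star u ⬝ᵥ u = star (A.toBlocks₁₁ *ᵥ u) ⬝ᵥ x + star (A.toBlocks₂₁ *ᵥ u) ⬝ᵥ y := by
    rw [← star_dot_conj, ← star_dot_conj, ← dotProduct_add, ← hu]
  have k2 : star p ⬝ᵥ x = star (A.toBlocks₁₁ *ᵥ u) ⬝ᵥ x + star (A.toBlocks₁₂ *ᵥ q) ⬝ᵥ x := by
    rw [hp, star_add, add_dotProduct]
  have k3 : star q ⬝ᵥ v = star (A.toBlocks₁₂ *ᵥ q) ⬝ᵥ x
      + (-(star y ⬝ᵥ y) - star (A.toBlocks₂₁ *ᵥ u) ⬝ᵥ y) := by
    rw [hv, dotProduct_add, star_dot_conj, star_dot_conj, h1, star_sub, star_neg,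
      sub_dotProduct, neg_dotProduct]
  have h3 : ((nsq u : ℝ) : ℂ) + ((nsq y : ℝ) : ℂ) = star p ⬝ᵥ x - star q ⬝ᵥ v := by
    rw [← star_dot_self, ← star_dot_self, k1, k2, k3]; ring
  have h4 : nsq u + nsq y = (star p ⬝ᵥ x).re - (star q ⬝ᵥ v).re := by
    have := congrArg Complex.re h3
    simpa using this
  have h5 := nsq_nonneg (p - x)
  have h6 := nsq_nonneg (q + v)
  rw [nsq_add] at h6
  rw [sub_eq_add_neg, nsq_add, nsq_neg, dotProduct_neg, Complex.neg_re] at h5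
  linarith

/-- the adjoint of a `j`-unitary matrix is `j`-unitary -/
lemma JU_star {A : Matrix (m ⊕ n) (m ⊕ n) ℂ} (hA : JU A) : JU Aᴴ := by
  unfold JU
  rw [conjTranspose_conjTranspose]
  have h1 : (sgnMat m n * Aᴴ * sgnMat m n) * A = 1 := by
    have : sgnMat m n * Aᴴ * sgnMat m n * A = sgnMat m n * (Aᴴ * sgnMat m n * A) := by
      simp only [Matrix.mul_assoc]
    rw [this, hA, sgn_mul_sgn]
  have h2 : A * (sgnMat m n * Aᴴ * sgnMat m n) = 1 := mul_eq_one_comm.1 h1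
  calc A * sgnMat m n * Aᴴ = A * sgnMat m n * Aᴴ * (sgnMat m n * sgnMat m n) := by
        rw [sgn_mul_sgn, Matrix.mul_one]
    _ = (A * (sgnMat m n * Aᴴ * sgnMat m n)) * sgnMat m n := by simp only [Matrix.mul_assoc]
    _ = sgnMat m n := by rw [h2, Matrix.one_mul]

/-- `W ∈ 𝒰(p,q)` implies `W~ ∈ 𝒰(p,q)` -/
lemma JInner_tl {W : ℂ → Matrix (m ⊕ n) (m ⊕ n) ℂ} (hW : JInner W) : JInner (tl W) where
  boundedType := boundedType_tl hW.boundedType
  det_ne_zero := by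
    obtain ⟨z, hz, ha, h0⟩ := hW.det_ne_zero
    refine ⟨(starRingEnd ℂ) z, conj_mem hz, analyticPt_tl (by rwa [Complex.conj_conj]), ?_⟩
    simp only [tl, Complex.conj_conj]
    rw [det_conjTranspose]
    simpa using h0
  contractive := by
    intro z hz ha
    have h1 := (jc_iff _).1 (hW.contractive _ (conj_mem hz) (analyticPt_of_tl ha))
    exact (jc_iff _).2 (JC_star h1)
  boundary := by
    filter_upwards [ae_conj hW.boundary] with ζ hζ
    obtain ⟨L, hL, hLu⟩ := hζ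
    exact ⟨Lᴴ, bdry_tl hL, JU_star hLu⟩

/-- `g = κ_W = W₂₂⁻¹ W₂₁` as functions on the disc: `g` is holomorphic and the identity holds at
the points of analyticity of `W`. -/
def IsKappa (W : ℂ → Matrix (m ⊕ n) (m ⊕ n) ℂ) (g : ℂ → Matrix n m ℂ) : Prop :=
  (∀ i k, DifferentiableOn ℂ (fun z => g z i k) disc) ∧
  ∀ z ∈ disc, AnalyticPt W z → g z = ((W z).toBlocks₂₂)⁻¹ * (W z).toBlocks₂₁

/-- `κ_W = g` gives `η_{W~} = g~` -/
lemma IsKappa.eta {W : ℂ → Matrix (m ⊕ n) (m ⊕ n) ℂ} {g : ℂ → Matrix n m ℂ}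
    (h : IsKappa W g) : IsEta (tl W) (tl g) := by
  refine ⟨diff_tl h.1, fun z hz ha => ?_⟩
  have h1 := h.2 _ (conj_mem hz) (analyticPt_of_tl ha)
  have e12 : (tl W z).toBlocks₁₂ = (W ((starRingEnd ℂ) z)).toBlocks₂₁ᴴ := rfl
  have e22 : (tl W z).toBlocks₂₂ = (W ((starRingEnd ℂ) z)).toBlocks₂₂ᴴ := rfl
  rw [e12, e22, ← conjTranspose_nonsing_inv, ← conjTranspose_mul, ← h1]
  rfl

/-- `η_W = f` gives `κ_{W~} = f~` -/
lemma kappa_of_eta {W : ℂ → Matrix (m ⊕ n) (m ⊕ n) ℂ} {f : ℂ → Matrix m n ℂ}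
    (h : IsEta W f) : IsKappa (tl W) (tl f) := by
  refine ⟨diff_tl h.1, fun z hz ha => ?_⟩
  have h1 := h.2 _ (conj_mem hz) (analyticPt_of_tl ha)
  have e21 : (tl W z).toBlocks₂₁ = (W ((starRingEnd ℂ) z)).toBlocks₁₂ᴴ := rfl
  have e22 : (tl W z).toBlocks₂₂ = (W ((starRingEnd ℂ) z)).toBlocks₂₂ᴴ := rfl
  rw [e21, e22, ← conjTranspose_nonsing_inv, ← conjTranspose_mul, ← h1]
  rfl

lemma isSchur_tl {f : ℂ → Matrix m n ℂ} (hf : IsSchur f) : IsSchur (tl f) := by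
  refine ⟨diff_tl hf.1, fun z hz => (one_sub_iff _).2 ?_⟩
  exact contr_star ((one_sub_iff _).1 (hf.2 _ (conj_mem hz)))

lemma pseudo_tl {f : ℂ → Matrix m n ℂ} (hf : HasPseudocontinuation f) :
    HasPseudocontinuation (tl f) := by
  obtain ⟨Φ, hΦ, hb⟩ := hf
  refine ⟨tl Φ, boundedType_tl hΦ, ?_⟩
  filter_upwards [ae_conj hb] with ζ hζ
  obtain ⟨L, h1, h2⟩ := hζ
  refine ⟨Lᴴ, bdry_tl h1, bdry_tl ?_⟩
  rw [map_inv₀]
  exact h2

lemma logDet_tl {f : ℂ → Matrix m n ℂ} (hf : LogDetIntegrable f) : LogDetIntegrable (tl f) := by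
  obtain ⟨fb, h1, h2, h3⟩ := hf
  have key : ∀ ζ, (1 - tl fb ζ * (tl fb ζ)ᴴ).det
      = (1 - fb ((starRingEnd ℂ) ζ) * (fb ((starRingEnd ℂ) ζ))ᴴ).det := by
    intro ζ
    simp only [tl, conjTranspose_conjTranspose]
    rw [det_one_sub_mul_comm]
  refine ⟨tl fb, ?_, ?_, ?_⟩
  · filter_upwards [ae_conj h1] with ζ hζ
    exact bdry_tl hζ
  · filter_upwards [ae_conj h2] with ζ hζ
    rw [key]
    exact hζ
  · simp only [key]
    exact mp_conj.integrable_comp_of_integrable h3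

/-- **Arov's theorem for `κ`**: an `n × m` function `g` is `κ_W = W₂₂⁻¹ W₂₁` for some `W ∈ 𝒰(p,q)`
if and only if it is a Schur function with a pseudocontinuation and `log det (I - g g*)`
integrable. -/
theorem kappa_iff (g : ℂ → Matrix n m ℂ) :
    (∃ W : ℂ → Matrix (m ⊕ n) (m ⊕ n) ℂ, JInner W ∧ IsKappa W g) ↔
      IsSchur g ∧ HasPseudocontinuation g ∧ LogDetIntegrable g := by
  constructor
  · rintro ⟨W, hW, hg⟩
    obtain ⟨a, b, c⟩ := arov_nec (JInner_tl hW) hg.eta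
    have a' := isSchur_tl a
    have b' := pseudo_tl b
    have c' := logDet_tl c
    rw [tl_tl] at a' b' c'
    exact ⟨a', b', c'⟩
  · rintro ⟨a, b, c⟩
    obtain ⟨W, hW, he⟩ := arov_exists (isSchur_tl a) (pseudo_tl b) (logDet_tl c)
    refine ⟨tl W, JInner_tl hW, ?_⟩
    have h := kappa_of_eta he
    rwa [tl_tl] at h

end Pool.Agent.H80K
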