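import Pool.Agent.H80K.Strict

open Filter Topology Complex MeasureTheory Set Matrix Metric
open scoped Real ENNReal ComplexOrder

namespace Pool.Agent.H80K

open Pool.Agent.RegJ

set_option linter.unusedSectionVars false

/-- Jensen's inequality for Poisson integrals of logarithms -/
lemma exp_PI_log_le {G : ℂ → ℝ} (hG : Integrable G σ) (h1 : ∀ ζ, 1 ≤ G ζ)
    (hl : Integrable (fun ζ => Real.log (G ζ)) σ) {z : ℂ} (hz : ‖z‖ < 1) :
    Real.exp (PI (fun ζ => Real.log (G ζ)) z) ≤ PI G z := by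
  obtain ⟨s, hs⟩ : ∃ s, s = PI (fun ζ => Real.log (G ζ)) z := ⟨_, rfl⟩
  rw [← hs]
  have h2 : ∀ ζ, Real.exp s * (1 + (Real.log (G ζ) - s)) ≤ G ζ := by
    intro ζ
    have h3 := Real.add_one_le_exp (Real.log (G ζ) - s)
    have h4 : Real.exp (Real.log (G ζ) - s) = G ζ / Real.exp s := by
      rw [Real.exp_sub, Real.exp_log (lt_of_lt_of_le one_pos (h1 ζ))]
    rw [h4, le_div_iff₀ (Real.exp_pos s)] at h3
    calc Real.exp s * (1 + (Real.log (G ζ) - s)) = (Real.log (G ζ) - s + 1) * Real.exp s := by ring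
      _ ≤ _ := h3
  have h6 : Integrable (fun ζ => Real.log (G ζ) - s) σ := hl.sub (integrable_const _)
  have h7 : Integrable (fun ζ => 1 + (Real.log (G ζ) - s)) σ := (integrable_const _).add h6
  have h8 : Integrable (fun ζ => Real.exp s * (1 + (Real.log (G ζ) - s))) σ := h7.const_mul _
  have h5 : PI (fun ζ => Real.exp s * (1 + (Real.log (G ζ) - s))) z = Real.exp s := by
    have e1 : PI (fun ζ => 1 + (Real.log (G ζ) - s)) z = 1 := by
      rw [PI_add (integrable_const _) h6 hz, PI_sub hl (integrable_const _) hz, PI_const _ hz,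
        PI_const _ hz, ← hs, sub_self, add_zero]
    rw [PI_const_mul, e1, mul_one]
  have h9 := PI_mono h8 hG (Eventually.of_forall h2) hz
  rwa [h5] at h9

/-- `‖h z‖ ≤ P[G](z)` if `h` has a Poisson majorant and `‖h‖ ≤ G` on the circle. -/
lemma norm_le_PI {h : ℂ → ℂ} (hd : DifferentiableOn ℂ h disc) (hm : Maj h) {G : ℂ → ℝ}
    (hG : Integrable G σ) (h1 : ∀ ζ, 1 ≤ G ζ)
    (hb : ∀ᵐ ζ ∂σ, ∃ L, HasBdryValue h ζ L ∧ ‖L‖ ≤ G ζ) {z : ℂ} (hz : z ∈ disc) :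
    ‖h z‖ ≤ PI G z := by
  have hz' : ‖z‖ < 1 := by simpa using hz
  have hl : Integrable (fun ζ => Real.log (G ζ)) σ := by
    refine hG.mono' (Real.measurable_log.comp_aemeasurable hG.aemeasurable).aestronglyMeasurable ?_
    refine Eventually.of_forall fun ζ => ?_
    rw [Real.norm_eq_abs, abs_of_nonneg (Real.log_nonneg (h1 ζ))]
    exact (Real.log_le_sub_one_of_pos (lt_of_lt_of_le one_pos (h1 ζ))).trans (by linarith)
  have h2 := maj_bound hd hm (g₀ := fun ζ => Real.log (G ζ)) hl (by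
    filter_upwards [hb] with ζ hζ
    obtain ⟨L, hL, hLG⟩ := hζ
    refine ⟨L, hL, ?_⟩
    unfold Real.posLog
    refine max_le (Real.log_nonneg (h1 ζ)) ?_
    rcases (norm_nonneg L).eq_or_lt with h0 | h0
    · rw [← h0, Real.log_zero]; exact Real.log_nonneg (h1 ζ)
    · exact Real.log_le_log h0 hLG) z hz
  have h3 : ‖h z‖ ≤ Real.exp (Real.posLog ‖h z‖) := by
    rcases (norm_nonneg (h z)).eq_or_lt with h0 | h0
    · rw [← h0]; exact (Real.exp_pos _).le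
    · calc ‖h z‖ = Real.exp (Real.log ‖h z‖) := (Real.exp_log h0).symm
        _ ≤ _ := Real.exp_le_exp.2 (le_max_right _ _)
  exact (h3.trans (Real.exp_le_exp.2 h2)).trans (exp_PI_log_le hG h1 hl hz')

/-- A function with a Poisson majorant whose boundary values are integrable and have nonnegative
real parts has nonnegative real part in the disc. -/
lemma re_nonneg {h : ℂ → ℂ} (hd : DifferentiableOn ℂ h disc) (hm : Maj h) {G : ℂ → ℝ}
    (hG : Integrable G σ) (h1 : ∀ ζ, 1 ≤ G ζ)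
    (hb : ∀ᵐ ζ ∂σ, ∃ L, HasBdryValue h ζ L ∧ ‖L‖ ≤ G ζ ∧ 0 ≤ L.re) {z : ℂ} (hz : z ∈ disc) :
    0 ≤ (h z).re := by
  have hψd : DifferentiableOn ℂ (fun z => Complex.exp (-(h z))) disc := hd.neg.cexp
  have hψm : Maj (fun z => Complex.exp (-(h z))) := by
    refine ⟨G, hG, fun ζ => zero_le_one.trans (h1 ζ), fun z hz => ?_⟩
    have h2 := norm_le_PI hd hm hG h1 (hb.mono fun ζ ⟨L, hL, hLG, _⟩ => ⟨L, hL, hLG⟩) hz
    unfold Real.posLog
    rw [Complex.norm_exp, Real.log_exp]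
    refine (max_le (norm_nonneg _) ?_).trans h2
    refine (Complex.re_le_norm _).trans ?_
    rw [norm_neg]
  have h3 := maj_bounded hψd hψm (by
    filter_upwards [hb] with ζ hζ
    obtain ⟨L, hL, -, hLr⟩ := hζ
    refine ⟨Complex.exp (-L), (Complex.continuous_exp.tendsto _).comp hL.neg, ?_⟩
    rw [Complex.norm_exp, Complex.neg_re, Real.exp_le_one_iff]
    linarith) z hz
  rw [Complex.norm_exp, Complex.neg_re, Real.exp_le_one_iff] at h3
  linarith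

variable {m n : Type*} [Fintype m] [DecidableEq m] [Fintype n] [DecidableEq n]

/-- If `(I - g* g)⁻¹` is integrable on the circle, `‖(I - g* g)⁻¹‖ ≤ k`, and `g` is the linear
fractional image of a Schur function `g'` under the A-singular function `S`, then `S` is
constant. -/
theorem const_of_L1 {S : ℂ → Matrix (m ⊕ n) (m ⊕ n) ℂ} (hS : ASingular S)
    {g g' : ℂ → Matrix n m ℂ} (hgS : IsSchur g) (hg' : IsSchur g') {k : ℂ → ℝ}
    (hk : Integrable k σ)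
    (hkb : ∀ᵐ ζ ∂σ, ∃ L, HasBdryValue g ζ L ∧ ∀ y, nsq y ≤ k ζ * (nsq y - nsq (L *ᵥ y)))
    (hgg : ∀ z ∈ disc, (g' z * (S z).toBlocks₁₂ + (S z).toBlocks₂₂) * g z
      = g' z * (S z).toBlocks₁₁ + (S z).toBlocks₂₁) :
    ∃ C, ∀ z ∈ disc, S z = C := by
  set V : ℂ → Matrix (m ⊕ n) (m ⊕ n) ℂ := fun z => (S z)⁻¹ with hV
  have hSa : ∀ z ∈ disc, AnalyticPt S z := analyticPt_iff.1 fun i k => (hS.smirnov i k).1
  have hVa : ∀ z ∈ disc, AnalyticPt V z := analyticPt_iff.1 fun i k => (hS.smirnov_inv i k).1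
  have hSm : MajM S := fun i k => (hS.smirnov i k).maj
  have hVm : MajM V := fun i k => (hS.smirnov_inv i k).maj
  have hSV : ∀ z ∈ disc, S z * V z = 1 := sinv_mul hS
  have hSC : ∀ z ∈ disc, JC (S z) := fun z hz =>
    (jc_iff _).1 (hS.jInner.contractive z hz (hSa z hz))
  have hg'a : ∀ z ∈ disc, AnalyticPt g' z := analyticPt_iff.1 hg'.1
  have hg'1 : ∀ z ∈ disc, ∀ i k, ‖g' z i k‖ ≤ 1 := fun z hz =>
    entry_one ((one_sub_iff _).1 (hg'.2 z hz))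
  have hg'm : MajM g' := MajM.of_bound (C := 1) hg'1
  have hgc : ∀ z ∈ disc, ∀ y, nsq (g z *ᵥ y) ≤ nsq y := fun z hz => (one_sub_iff _).1 (hgS.2 z hz)
  set c : ℂ → Matrix n n ℂ := fun z => g' z * (S z).toBlocks₁₂ + (S z).toBlocks₂₂ with hc
  have hca : ∀ z ∈ disc, AnalyticPt c z := fun z hz =>
    ((hg'a z hz).mul (hSa z hz).b12).add (hSa z hz).b22
  have s12 : MajM (fun z => (S z).toBlocks₁₂) := fun i k => hSm _ _
  have s22 : MajM (fun z => (S z).toBlocks₂₂) := fun i k => hSm _ _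
  have v22 : MajM (fun z => (V z).toBlocks₂₂) := fun i k => hVm _ _
  have hcm : MajM c := (hg'm.mul s12).add s22
  have hcd : ∀ z ∈ disc, c z * (g z * (V z).toBlocks₁₂ + (V z).toBlocks₂₂) = 1 := fun z hz =>
    cd_one (hSV z hz) (hgg z hz)
  set F : ℂ → Matrix n n ℂ := fun z => (V z).toBlocks₂₂ * c z with hF
  have hFa : ∀ z ∈ disc, AnalyticPt F z := fun z hz => ((hVa z hz).b22).mul (hca z hz)
  have hFm : MajM F := v22.mul hcm
  -- boundary values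
  have hbdry : ∀ᵐ ζ ∂σ, ∃ (S0 : Matrix (m ⊕ n) (m ⊕ n) ℂ) (c0 : Matrix n n ℂ),
      HasBdryValue S ζ S0 ∧ JU S0 ∧ HasBdryValue V ζ S0⁻¹ ∧ HasBdryValue c ζ c0 ∧
      HasBdryValue F ζ (S0⁻¹.toBlocks₂₂ * c0) ∧
      ∀ x, 0 ≤ (star x ⬝ᵥ ((S0⁻¹.toBlocks₂₂ * c0) *ᵥ x)).re ∧
        ‖star x ⬝ᵥ ((S0⁻¹.toBlocks₂₂ * c0) *ᵥ x)‖ ≤ 2 * max (k ζ) 1 * nsq x := by
    filter_upwards [hS.jInner.boundary, hkb, fatouM hg'.1 hg'1, ae_norm]
      with ζ h1 h2 h3 hn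
    obtain ⟨S0, hS0, hSU⟩ := h1
    obtain ⟨g0, hg0, hg0k⟩ := h2
    obtain ⟨g1, hg1'⟩ := h3
    have hSU' : JU S0 := hSU
    have hV0 : HasBdryValue V ζ S0⁻¹ := tendsto_minv hS0 hSU'.isUnit.ne_zero
    have hc0 : HasBdryValue c ζ (g1 * S0.toBlocks₁₂ + S0.toBlocks₂₂) :=
      Tendsto.add (tendsto_mmul hg1' (tendsto_b12 hS0)) (tendsto_b22 hS0)
    have hF0 : HasBdryValue F ζ (S0⁻¹.toBlocks₂₂ * (g1 * S0.toBlocks₁₂ + S0.toBlocks₂₂)) :=
      tendsto_mmul (tendsto_b22 hV0) hc0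
    have hg0c : ∀ y, nsq (g0 *ᵥ y) ≤ nsq y := by
      intro y
      have k1 : Tendsto (fun r : ℝ => nsq (g (r * ζ) *ᵥ y)) (𝓝[<] 1) (𝓝 (nsq (g0 *ᵥ y))) :=
        tendsto_nsq hg0 y
      apply le_of_tendsto k1
      filter_upwards [eventually_r] with r hr
      exact hgc _ (dil_mem hr hn) y
    obtain ⟨κ, hκ⟩ : ∃ κ, κ = max (k ζ) 1 := ⟨_, rfl⟩
    have hκ1 : 1 ≤ κ := hκ ▸ le_max_right _ _
    have hκ0 : 0 < κ := by linarith
    have hinv : 0 < κ⁻¹ := inv_pos.2 hκ0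
    have hinv1 : κ⁻¹ ≤ 1 := inv_le_one_of_one_le₀ hκ1
    set ρ := √(1 - κ⁻¹) with hρ
    have hρ2 : ρ ^ 2 = 1 - κ⁻¹ := Real.sq_sqrt (by linarith)
    have hρ0 : 0 ≤ ρ := Real.sqrt_nonneg _
    have hρ1 : ρ < 1 := by nlinarith
    have hgρ : ∀ y, nsq (g0 *ᵥ y) ≤ ρ ^ 2 * nsq y := by
      intro y
      have k1 := hg0k y
      have k2 : k ζ * (nsq y - nsq (g0 *ᵥ y)) ≤ κ * (nsq y - nsq (g0 *ᵥ y)) :=
        mul_le_mul_of_nonneg_right (hκ ▸ le_max_left _ _) (by linarith [hg0c y])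
      have k3 : κ⁻¹ * nsq y ≤ nsq y - nsq (g0 *ᵥ y) := by
        rw [inv_mul_le_iff₀ hκ0]
        exact k1.trans k2
      rw [hρ2]
      linarith
    have hcd0 : (g1 * S0.toBlocks₁₂ + S0.toBlocks₂₂) *
        (g0 * S0⁻¹.toBlocks₁₂ + S0⁻¹.toBlocks₂₂) = 1 := by
      have k1 : Tendsto (fun r : ℝ => c (r * ζ) *
          (g (r * ζ) * (V (r * ζ)).toBlocks₁₂ + (V (r * ζ)).toBlocks₂₂)) (𝓝[<] 1)
          (𝓝 ((g1 * S0.toBlocks₁₂ + S0.toBlocks₂₂) *
            (g0 * S0⁻¹.toBlocks₁₂ + S0⁻¹.toBlocks₂₂))) :=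
        tendsto_mmul hc0 (Tendsto.add (tendsto_mmul hg0 (tendsto_b12 hV0)) (tendsto_b22 hV0))
      refine tendsto_nhds_unique k1 (tendsto_const_nhds.congr' ?_)
      filter_upwards [eventually_r] with r hr
      exact (hcd _ (dil_mem hr hn)).symm
    refine ⟨S0, _, hS0, hSU', hV0, hc0, hF0, fun x => ?_⟩
    obtain ⟨k1, k2⟩ := bdry_est hρ0 hρ1 hSU'.inv (g := g0) hgρ hcd0 x
    refine ⟨k1, ?_⟩
    have k3 : (1 - ρ)⁻¹ ≤ 2 * κ := by
      rw [inv_le_comm₀ (by linarith) (by positivity)]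
      have : (2 * κ)⁻¹ = κ⁻¹ / 2 := by rw [mul_inv]; ring
      rw [this]
      nlinarith
    have k4 : 0 < (1 - ρ)⁻¹ := inv_pos.2 (by linarith)
    rw [← hκ]
    have k5 := cs x ((S0⁻¹.toBlocks₂₂ * (g1 * S0.toBlocks₁₂ + S0.toBlocks₂₂)) *ᵥ x)
    have k6 : ‖star x ⬝ᵥ ((S0⁻¹.toBlocks₂₂ * (g1 * S0.toBlocks₁₂ + S0.toBlocks₂₂)) *ᵥ x)‖ ^ 2
        ≤ (2 * κ * nsq x) ^ 2 := by
      refine k5.trans ?_
      have k7 : ((1 - ρ)⁻¹) ^ 2 ≤ (2 * κ) ^ 2 := pow_le_pow_left₀ k4.le k3 2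
      calc nsq x * nsq _ ≤ nsq x * (((1 - ρ)⁻¹) ^ 2 * nsq x) :=
            mul_le_mul_of_nonneg_left k2 (nsq_nonneg _)
        _ ≤ nsq x * ((2 * κ) ^ 2 * nsq x) :=
            mul_le_mul_of_nonneg_left (mul_le_mul_of_nonneg_right k7 (nsq_nonneg _)) (nsq_nonneg _)
        _ = _ := by ring
    exact (sq_le_sq₀ (norm_nonneg _) (mul_nonneg (by linarith) (nsq_nonneg _))).1 k6
  have hacc : ∀ z ∈ disc, ∀ x, 0 ≤ (star x ⬝ᵥ (F z *ᵥ x)).re := by
    intro z hz x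
    have hφd : DifferentiableOn ℂ (fun z => star x ⬝ᵥ (F z *ᵥ x)) disc := fun z hz =>
      (analyticAt_form (hFa z hz) _ _).differentiableAt.differentiableWithinAt
    have hki : Integrable (fun ζ => max (k ζ) 1) σ := hk.sup (integrable_const 1)
    refine re_nonneg hφd (hFm.form _ _) (G := fun ζ => 1 + 2 * max (k ζ) 1 * nsq x)
      ((integrable_const _).add ((hki.const_mul 2).mul_const _)) (fun ζ => ?_) ?_ hz
    · have h1 : (1 : ℝ) ≤ max (k ζ) 1 := le_max_right _ _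
      have h2 : 0 ≤ 2 * max (k ζ) 1 * nsq x := mul_nonneg (by linarith) (nsq_nonneg _)
      linarith
    · filter_upwards [hbdry] with ζ hζ
      obtain ⟨S0, c0, -, -, -, -, hF0, hest⟩ := hζ
      exact ⟨_, tendsto_form hF0 (star x) x, by linarith [(hest x).2], (hest x).1⟩
  have hV22 : ∀ z ∈ disc, ∀ w, nsq w ≤ nsq ((V z).toBlocks₂₂ *ᵥ w) := by
    apply inv_bound (T := c) (h := fun _ => 1) (differentiableOn_const _)
      ⟨0, by simp, one_ne_zero⟩ hVa hca hcm hacc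
      (fun z hz _ => isUnit_det_of_right_inverse (hcd z hz))
    filter_upwards [hbdry] with ζ hζ
    obtain ⟨S0, c0, -, hSU, hV0, hc0, -, -⟩ := hζ
    exact ⟨S0⁻¹, c0, hV0, hSU.inv, hc0⟩
  exact const_of_bound hSa hVa hSC hVm hV22 (by
    filter_upwards [hbdry] with ζ hζ
    obtain ⟨S0, c0, hS0, hSU, hV0, -, -, -⟩ := hζ
    exact ⟨S0, hS0, hSU, hV0⟩)

end Pool.Agent.H80K
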