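import Pool.Agent.RegJ.ArovConv

open Filter Topology Complex MeasureTheory Set Matrix Metric
open scoped Real ENNReal ComplexOrder

namespace Pool.Agent.H80K

open Pool.Agent.RegJ

set_option linter.unusedSectionVars false

variable {m n : Type*} [Fintype m] [DecidableEq m] [Fintype n] [DecidableEq n]

lemma sinv_mul {S : ℂ → Matrix (m ⊕ n) (m ⊕ n) ℂ} (hS : ASingular S) :
    ∀ z ∈ disc, S z * (S z)⁻¹ = 1 := by
  have hSa : ∀ z ∈ disc, AnalyticPt S z := analyticPt_iff.1 fun i k => (hS.smirnov i k).1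
  have hVa : ∀ z ∈ disc, AnalyticPt (fun z => (S z)⁻¹) z :=
    analyticPt_iff.1 fun i k => (hS.smirnov_inv i k).1
  have hSdet : DifferentiableOn ℂ (fun z => (S z).det) disc := fun z hz =>
    (hSa z hz).det.differentiableAt.differentiableWithinAt
  have hSdne : ∃ z ∈ disc, (S z).det ≠ 0 := by
    obtain ⟨z, hz, -, h0⟩ := hS.jInner.det_ne_zero
    exact ⟨z, hz, h0⟩
  intro z hz
  apply eq_of_ev (φ := fun z => S z * (S z)⁻¹) (ψ := fun _ => 1)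
    (continuousAt_entries ((hSa z hz).mul (hVa z hz))) continuousAt_const
  filter_upwards [ev_ne hSdet hSdne hz] with y hy
  exact mul_nonsing_inv _ (isUnit_iff_ne_zero.2 hy.2)

lemma fatouM {a b : Type*} [Fintype a] [Fintype b] {g : ℂ → Matrix a b ℂ}
    (hd : ∀ i k, DifferentiableOn ℂ (fun z => g z i k) disc)
    (hb : ∀ z ∈ disc, ∀ i k, ‖g z i k‖ ≤ 1) : ∀ᵐ ζ ∂σ, ∃ L, HasBdryValue g ζ L := by
  have h1 : ∀ p : a × b, ∀ᵐ ζ ∂σ, ∃ L, HasBdryValue (fun z => g z p.1 p.2) ζ L :=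
    fun p => fatou (hd p.1 p.2) (fun z hz => hb z hz p.1 p.2)
  filter_upwards [ae_all_iff.2 h1] with ζ hζ
  choose L hL using hζ
  exact ⟨Matrix.of fun i j => L (i, j), tendsto_entries.2 fun i j => hL (i, j)⟩

lemma entry_one {a b : Type*} [Fintype a] [Fintype b] [DecidableEq b] {A : Matrix a b ℂ}
    (h : ∀ y, nsq (A *ᵥ y) ≤ nsq y) (i : a) (k : b) : ‖A i k‖ ≤ 1 := by
  refine entry_le_of_contr zero_le_one (fun k => ?_) i k
  have := h (Pi.single k 1)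
  rw [nsq_single] at this
  simpa using this

/-- the identity `c d = 1` -/
lemma cd_one {S V : Matrix (m ⊕ n) (m ⊕ n) ℂ} {g g' : Matrix n m ℂ} (hSV : S * V = 1)
    (h : (g' * S.toBlocks₁₂ + S.toBlocks₂₂) * g = g' * S.toBlocks₁₁ + S.toBlocks₂₁) :
    (g' * S.toBlocks₁₂ + S.toBlocks₂₂) * (g * V.toBlocks₁₂ + V.toBlocks₂₂) = 1 := by
  have e12 := congrArg toBlocks₁₂ hSV
  have e22 := congrArg toBlocks₂₂ hSV
  rw [mul_blocks12, ← fromBlocks_one, toBlocks_fromBlocks₁₂] at e12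
  rw [mul_blocks22, ← fromBlocks_one, toBlocks_fromBlocks₂₂] at e22
  have : (g' * S.toBlocks₁₂ + S.toBlocks₂₂) * (g * V.toBlocks₁₂ + V.toBlocks₂₂)
      = g' * (S.toBlocks₁₁ * V.toBlocks₁₂ + S.toBlocks₁₂ * V.toBlocks₂₂)
      + (S.toBlocks₂₁ * V.toBlocks₁₂ + S.toBlocks₂₂ * V.toBlocks₂₂) := by
    rw [Matrix.mul_add, ← Matrix.mul_assoc, h]
    simp only [Matrix.mul_add, Matrix.add_mul, Matrix.mul_assoc]
    abel
  rw [this, e12, e22, Matrix.mul_zero, zero_add]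

/-- boundary estimates for `F = V₂₂ c` -/
lemma bdry_est {V : Matrix (m ⊕ n) (m ⊕ n) ℂ} {g : Matrix n m ℂ} {c : Matrix n n ℂ} {ρ : ℝ}
    (hρ0 : 0 ≤ ρ) (hρ : ρ < 1) (hV : JU V) (hg : ∀ y, nsq (g *ᵥ y) ≤ ρ ^ 2 * nsq y)
    (hcd : c * (g * V.toBlocks₁₂ + V.toBlocks₂₂) = 1) (x : n → ℂ) :
    0 ≤ (star x ⬝ᵥ ((V.toBlocks₂₂ * c) *ᵥ x)).re ∧
      nsq ((V.toBlocks₂₂ * c) *ᵥ x) ≤ ((1 - ρ)⁻¹) ^ 2 * nsq x := by
  have hdc : (g * V.toBlocks₁₂ + V.toBlocks₂₂) * c = 1 := mul_eq_one_comm.1 hcd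
  obtain ⟨w, hw⟩ : ∃ w, w = c *ᵥ x := ⟨_, rfl⟩
  obtain ⟨a, ha⟩ : ∃ a, a = g *ᵥ (V.toBlocks₁₂ *ᵥ w) := ⟨_, rfl⟩
  obtain ⟨b, hb⟩ : ∃ b, b = V.toBlocks₂₂ *ᵥ w := ⟨_, rfl⟩
  have e1 : (V.toBlocks₂₂ * c) *ᵥ x = b := by rw [hb, hw, mulVec_mulVec]
  have e2 : x = a + b := by
    have h1 := congrArg (fun M => M *ᵥ x) hdc
    simp only [one_mulVec] at h1
    rw [← h1, ← mulVec_mulVec, ← hw, add_mulVec, ← mulVec_mulVec, ← ha, ← hb]
  have h1 : nsq a ≤ ρ ^ 2 * nsq b := by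
    have k1 := hg (V.toBlocks₁₂ *ᵥ w)
    have k2 := hV.eq22 w
    rw [← ha] at k1
    rw [← hb] at k2
    have k3 : nsq (V.toBlocks₁₂ *ᵥ w) ≤ nsq b := by linarith [nsq_nonneg w]
    exact k1.trans (mul_le_mul_of_nonneg_left k3 (sq_nonneg _))
  have hb0 := nsq_nonneg b
  have h2 : ‖star a ⬝ᵥ b‖ ≤ ρ * nsq b := by
    have k1 := cs a b
    have k2 : ‖star a ⬝ᵥ b‖ ^ 2 ≤ (ρ * nsq b) ^ 2 := by
      refine k1.trans ?_
      calc nsq a * nsq b ≤ (ρ ^ 2 * nsq b) * nsq b := mul_le_mul_of_nonneg_right h1 hb0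
        _ = _ := by ring
    exact (sq_le_sq₀ (norm_nonneg _) (mul_nonneg hρ0 hb0)).1 k2
  have h3 := (abs_le.1 (Complex.abs_re_le_norm (star a ⬝ᵥ b))).1
  have h4 : (star x ⬝ᵥ b).re = (star a ⬝ᵥ b).re + nsq b := by
    conv_lhs => rw [e2]
    rw [star_add, add_dotProduct, star_dot_self, add_re, ofReal_re]
  have h5 : (1 - ρ) * nsq b ≤ (star x ⬝ᵥ b).re := by rw [h4]; linarith
  have h6 : 0 ≤ (1 - ρ) * nsq b := mul_nonneg (by linarith) hb0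
  rw [e1]
  refine ⟨h6.trans h5, ?_⟩
  have h7 := cs x b
  have h8 : (star x ⬝ᵥ b).re ≤ ‖star x ⬝ᵥ b‖ := Complex.re_le_norm _
  have h9 : ((1 - ρ) * nsq b) ^ 2 ≤ nsq x * nsq b := by
    refine le_trans ?_ h7
    exact pow_le_pow_left₀ h6 (h5.trans h8) 2
  have hρ' : 0 < 1 - ρ := by linarith
  rcases hb0.eq_or_lt with h0 | h0
  · rw [← h0]; exact mul_nonneg (sq_nonneg _) (nsq_nonneg _)
  · have h10 : (1 - ρ) ^ 2 * nsq b ≤ nsq x := by
      have : (1 - ρ) ^ 2 * nsq b * nsq b ≤ nsq x * nsq b := by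
        calc (1 - ρ) ^ 2 * nsq b * nsq b = ((1 - ρ) * nsq b) ^ 2 := by ring
          _ ≤ _ := h9
      exact le_of_mul_le_mul_right this h0
    rw [inv_pow, ← div_eq_inv_mul, le_div_iff₀ (by positivity)]
    linarith

/-- If `g` is a strict contraction, `‖g‖ ≤ ρ < 1` in the disc, and `g` is the linear fractional
image of a Schur function `g'` under the A-singular function `S`, then `S` is constant. -/
theorem const_of_strict {S : ℂ → Matrix (m ⊕ n) (m ⊕ n) ℂ} (hS : ASingular S)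
    {g g' : ℂ → Matrix n m ℂ} (hg' : IsSchur g') {ρ : ℝ} (hρ0 : 0 ≤ ρ) (hρ : ρ < 1)
    (hgd : ∀ i k, DifferentiableOn ℂ (fun z => g z i k) disc)
    (hgb : ∀ z ∈ disc, ∀ y, nsq (g z *ᵥ y) ≤ ρ ^ 2 * nsq y)
    (hgg : ∀ z ∈ disc, (g' z * (S z).toBlocks₁₂ + (S z).toBlocks₂₂) * g z
      = g' z * (S z).toBlocks₁₁ + (S z).toBlocks₂₁) :
    ∃ C, ∀ z ∈ disc, S z = C := by
  set V : ℂ → Matrix (m ⊕ n) (m ⊕ n) ℂ := fun z => (S z)⁻¹ with hV
  have hSa : ∀ z ∈ disc, AnalyticPt S z := analyticPt_iff.1 fun i k => (hS.smirnov i k).1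
  have hVa : ∀ z ∈ disc, AnalyticPt V z := analyticPt_iff.1 fun i k => (hS.smirnov_inv i k).1
  have hSm : MajM S := fun i k => (hS.smirnov i k).maj
  have hVm : MajM V := fun i k => (hS.smirnov_inv i k).maj
  have hSV : ∀ z ∈ disc, S z * V z = 1 := sinv_mul hS
  have hSC : ∀ z ∈ disc, JC (S z) := fun z hz =>
    (jc_iff _).1 (hS.jInner.contractive z hz (hSa z hz))
  have hg'a : ∀ z ∈ disc, AnalyticPt g' z := analyticPt_iff.1 hg'.1
  have hg'1 : ∀ z ∈ disc, ∀ i k, ‖g' z i k‖ ≤ 1 := fun z hz =>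
    entry_one ((one_sub_iff _).1 (hg'.2 z hz))
  have hg'm : MajM g' := MajM.of_bound (C := 1) hg'1
  have hgc : ∀ z ∈ disc, ∀ y, nsq (g z *ᵥ y) ≤ nsq y := by
    intro z hz y
    refine (hgb z hz y).trans ?_
    have : ρ ^ 2 ≤ 1 := pow_le_one₀ hρ0 hρ.le
    nlinarith [nsq_nonneg y]
  have hg1 : ∀ z ∈ disc, ∀ i k, ‖g z i k‖ ≤ 1 := fun z hz => entry_one (hgc z hz)
  set c : ℂ → Matrix n n ℂ := fun z => g' z * (S z).toBlocks₁₂ + (S z).toBlocks₂₂ with hc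
  have hca : ∀ z ∈ disc, AnalyticPt c z := fun z hz =>
    ((hg'a z hz).mul (hSa z hz).b12).add (hSa z hz).b22
  have s12 : MajM (fun z => (S z).toBlocks₁₂) := fun i k => hSm _ _
  have s22 : MajM (fun z => (S z).toBlocks₂₂) := fun i k => hSm _ _
  have v22 : MajM (fun z => (V z).toBlocks₂₂) := fun i k => hVm _ _
  have hcm : MajM c := (hg'm.mul s12).add s22
  have hcd : ∀ z ∈ disc, c z * (g z * (V z).toBlocks₁₂ + (V z).toBlocks₂₂) = 1 := fun z hz =>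
    cd_one (hSV z hz) (hgg z hz)
  set F : ℂ → Matrix n n ℂ := fun z => (V z).toBlocks₂₂ * c z with hF
  have hFa : ∀ z ∈ disc, AnalyticPt F z := fun z hz => ((hVa z hz).b22).mul (hca z hz)
  have hFm : MajM F := v22.mul hcm
  -- boundary values
  have hbdry : ∀ᵐ ζ ∂σ, ∃ (S0 : Matrix (m ⊕ n) (m ⊕ n) ℂ) (c0 : Matrix n n ℂ),
      HasBdryValue S ζ S0 ∧ JU S0 ∧ HasBdryValue V ζ S0⁻¹ ∧ HasBdryValue c ζ c0 ∧
      HasBdryValue F ζ (S0⁻¹.toBlocks₂₂ * c0) ∧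
      ∀ x, 0 ≤ (star x ⬝ᵥ ((S0⁻¹.toBlocks₂₂ * c0) *ᵥ x)).re ∧
        nsq ((S0⁻¹.toBlocks₂₂ * c0) *ᵥ x) ≤ ((1 - ρ)⁻¹) ^ 2 * nsq x := by
    filter_upwards [hS.jInner.boundary, fatouM hgd hg1, fatouM hg'.1 hg'1, ae_norm]
      with ζ h1 h2 h3 hn
    obtain ⟨S0, hS0, hSU⟩ := h1
    obtain ⟨g0, hg0⟩ := h2
    obtain ⟨g1, hg1'⟩ := h3
    have hSU' : JU S0 := hSU
    have hV0 : HasBdryValue V ζ S0⁻¹ := tendsto_minv hS0 hSU'.isUnit.ne_zero
    have hc0 : HasBdryValue c ζ (g1 * S0.toBlocks₁₂ + S0.toBlocks₂₂) :=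
      Tendsto.add (tendsto_mmul hg1' (tendsto_b12 hS0)) (tendsto_b22 hS0)
    have hF0 : HasBdryValue F ζ (S0⁻¹.toBlocks₂₂ * (g1 * S0.toBlocks₁₂ + S0.toBlocks₂₂)) :=
      tendsto_mmul (tendsto_b22 hV0) hc0
    refine ⟨S0, _, hS0, hSU', hV0, hc0, hF0, fun x => bdry_est hρ0 hρ hSU'.inv (g := g0) ?_ ?_ x⟩
    · intro y
      have k1 : Tendsto (fun r : ℝ => nsq (g (r * ζ) *ᵥ y)) (𝓝[<] 1) (𝓝 (nsq (g0 *ᵥ y))) :=
        tendsto_nsq hg0 y
      apply le_of_tendsto k1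
      filter_upwards [eventually_r] with r hr
      exact hgb _ (dil_mem hr hn) y
    · have k1 : Tendsto (fun r : ℝ => c (r * ζ) *
          (g (r * ζ) * (V (r * ζ)).toBlocks₁₂ + (V (r * ζ)).toBlocks₂₂)) (𝓝[<] 1)
          (𝓝 ((g1 * S0.toBlocks₁₂ + S0.toBlocks₂₂) *
            (g0 * S0⁻¹.toBlocks₁₂ + S0⁻¹.toBlocks₂₂))) :=
        tendsto_mmul hc0 (Tendsto.add (tendsto_mmul hg0 (tendsto_b12 hV0)) (tendsto_b22 hV0))
      refine tendsto_nhds_unique k1 (tendsto_const_nhds.congr' ?_)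
      filter_upwards [eventually_r] with r hr
      exact (hcd _ (dil_mem hr hn)).symm
  have hρ' : 0 < 1 - ρ := by linarith
  have hFb : ∀ z ∈ disc, ∀ i k, ‖F z i k‖ ≤ (1 - ρ)⁻¹ := by
    apply maj_bounded_entry hFa hFm (inv_pos.2 hρ')
    filter_upwards [hbdry] with ζ hζ
    obtain ⟨S0, c0, -, -, -, -, hF0, hest⟩ := hζ
    refine ⟨_, hF0, entry_le_of_contr (inv_pos.2 hρ').le fun k => ?_⟩
    have := (hest (Pi.single k 1)).2
    rwa [nsq_single, mul_one] at this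
  have hacc : ∀ z ∈ disc, ∀ x, 0 ≤ (star x ⬝ᵥ (F z *ᵥ x)).re := by
    intro z hz x
    have hφd : DifferentiableOn ℂ (fun z => star x ⬝ᵥ (F z *ᵥ x)) disc := fun z hz =>
      (analyticAt_form (hFa z hz) _ _).differentiableAt.differentiableWithinAt
    have hφb : ∀ z ∈ disc, ‖star x ⬝ᵥ (F z *ᵥ x)‖ ≤
        ∑ i, ‖x i‖ * ∑ k, (1 - ρ)⁻¹ * ‖x k‖ := by
      intro z hz
      unfold dotProduct
      refine (norm_sum_le _ _).trans (Finset.sum_le_sum fun i _ => ?_)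
      rw [norm_mul, Pi.star_apply, norm_star]
      refine mul_le_mul_of_nonneg_left ?_ (norm_nonneg _)
      unfold mulVec dotProduct
      refine (norm_sum_le _ _).trans (Finset.sum_le_sum fun k _ => ?_)
      rw [norm_mul]
      exact mul_le_mul_of_nonneg_right (hFb z hz i k) (norm_nonneg _)
    have hψd : DifferentiableOn ℂ (fun z => Complex.exp (-(star x ⬝ᵥ (F z *ᵥ x)))) disc :=
      hφd.neg.cexp
    have hψm : Maj (fun z => Complex.exp (-(star x ⬝ᵥ (F z *ᵥ x)))) := by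
      refine Maj.of_bound (C := Real.exp (∑ i, ‖x i‖ * ∑ k, (1 - ρ)⁻¹ * ‖x k‖)) fun z hz => ?_
      rw [Complex.norm_exp]
      apply Real.exp_le_exp.2
      refine (Complex.re_le_norm _).trans ?_
      rw [norm_neg]
      exact hφb z hz
    have h1 := maj_bounded hψd hψm (by
      filter_upwards [hbdry] with ζ hζ
      obtain ⟨S0, c0, -, -, -, -, hF0, hest⟩ := hζ
      refine ⟨Complex.exp (-(star x ⬝ᵥ ((S0⁻¹.toBlocks₂₂ * c0) *ᵥ x))), ?_, ?_⟩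
      · exact (Complex.continuous_exp.tendsto _).comp (tendsto_form hF0 (star x) x).neg
      · rw [Complex.norm_exp, Complex.neg_re, Real.exp_le_one_iff]
        linarith [(hest x).1]) z hz
    rw [Complex.norm_exp, Complex.neg_re, Real.exp_le_one_iff] at h1
    linarith
  have hV22 : ∀ z ∈ disc, ∀ w, nsq w ≤ nsq ((V z).toBlocks₂₂ *ᵥ w) := by
    apply inv_bound (T := c) (h := fun _ => 1) (differentiableOn_const _)
      ⟨0, by simp, one_ne_zero⟩ hVa hca hcm hacc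
      (fun z hz _ => isUnit_det_of_right_inverse (hcd z hz))
    filter_upwards [hbdry] with ζ hζ
    obtain ⟨S0, c0, -, hSU, hV0, hc0, -, -⟩ := hζ
    exact ⟨S0⁻¹, c0, hV0, hSU.inv, hc0⟩
  exact const_of_bound hSa hVa hSC hVm hV22 (by
    filter_upwards [hbdry] with ζ hζ
    obtain ⟨S0, c0, hS0, hSU, hV0, -, -, -⟩ := hζ
    exact ⟨S0, hS0, hSU, hV0⟩)

end Pool.Agent.H80K
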